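import Pool.Agent.helper20.FX.Spec
import Pool.Agent.helper2.Fermat.GapM

/-!
# Project fm: (MP_37e5fa_nt): ODC, the odd part of the totient
-/

set_option autoImplicit false

namespace Pool.Agent.FXM

open Finset Pool.Agent.helper2.Fermat Pool.Agent.helper2.FermatM

theorem ODC_ex (M p : ℕ) (hM : 0 < M) (hp : p.Prime) (hd : p ∣ 2 ^ M + 1) :
    1 ≤ ex p ∧ ex p ≤ M := by
  obtain ⟨h2, hodd, heq⟩ := prime_factorM M p hM hp hd
  constructor
  · rw [Nat.one_le_iff_ne_zero]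
    intro h0
    rw [h0, pow_zero, mul_one] at heq
    have h3 : Odd p := Odd.of_dvd_nat (two_pow_odd M hM) hd
    obtain ⟨i, hi⟩ := h3
    obtain ⟨j, hj⟩ := hodd
    omega
  · have h3 : p ≤ 2 ^ M + 1 := Nat.le_of_dvd (by positivity) hd
    have h4 : 2 ^ ex p ≤ od p * 2 ^ ex p := Nat.le_mul_of_pos_left _ hodd.pos
    have h5 : 2 ^ ex p ≤ 2 ^ M := by omega
    exact (Nat.pow_le_pow_iff_right (by norm_num)).1 h5

theorem ODC_card (M F : ℕ) (hM : 0 < M) (hFdef : F = 2 ^ M + 1) (hF : ¬ F.Prime) (P1 : Finset ℕ)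
    (hP1 : P1 = F.primeFactors.filter (fun p => od p = 1)) :
    ∑ p ∈ P1, Real.logb 2 p ≤ (M : ℝ) / 3 + 1 := by
  have hone : ∀ p ∈ P1, (ex p = 2 ^ M.factorization 2 ∧ 3 * ex p ≤ M) ∧ p = 2 ^ ex p + 1 := by
    intro p hp
    rw [hP1, Finset.mem_filter] at hp
    have hp' := Nat.mem_primeFactors.1 hp.1
    have h1 := one_case M p hM hp'.1 (hFdef ▸ hp'.2.1) (hFdef ▸ hF) hp.2
    obtain ⟨-, -, h2⟩ := prime_factorM M p hM hp'.1 (hFdef ▸ hp'.2.1)
    rw [hp.2, one_mul] at h2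
    exact ⟨h1, h2⟩
  have hcard : P1.card ≤ 1 := by
    rw [Finset.card_le_one]
    intro a ha b hb
    rw [(hone a ha).2, (hone b hb).2, (hone a ha).1.1, (hone b hb).1.1]
  have hL : ∀ p ∈ P1, Real.logb 2 p ≤ (M : ℝ) / 3 + 1 := by
    intro p hp
    obtain ⟨h1, h5⟩ := hone p hp
    have hle : (p : ℝ) ≤ 2 * 2 ^ ex p := by
      have : p ≤ 2 * 2 ^ ex p := by
        have : 0 < 2 ^ ex p := by positivity
        omega
      exact_mod_cast this
    have hpR : (0 : ℝ) < p := by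
      have h8 : p.Prime := by
        rw [hP1, Finset.mem_filter] at hp
        exact (Nat.mem_primeFactors.1 hp.1).1
      exact_mod_cast h8.pos
    have h6 := Real.logb_le_logb_of_le (b := 2) (by norm_num) hpR hle
    rw [Real.logb_mul (by norm_num) (by positivity),
      Real.logb_pow, Real.logb_self_eq_one (by norm_num)] at h6
    have h7 : (3 : ℝ) * ex p ≤ M := by exact_mod_cast h1.2
    linarith
  calc ∑ p ∈ P1, Real.logb 2 p ≤ ∑ p ∈ P1, ((M : ℝ) / 3 + 1) := Finset.sum_le_sum hL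
    _ = P1.card * ((M : ℝ) / 3 + 1) := by rw [Finset.sum_const, nsmul_eq_mul]
    _ ≤ 1 * ((M : ℝ) / 3 + 1) := by
        refine mul_le_mul_of_nonneg_right ?_ (by positivity)
        exact_mod_cast hcard
    _ = (M : ℝ) / 3 + 1 := one_mul _

theorem ODC_A (M K : ℕ) (hM : 0 < M) (PA : Finset ℕ)
    (hPA : ∀ p ∈ PA, p.Prime ∧ p ∣ 2 ^ M + 1 ∧ od p ≠ 1 ∧ od p ≤ K) :
    ∑ p ∈ PA, Real.logb 2 p ≤
      ∑ k ∈ (Icc 3 K).filter (fun k => Odd k), ∑ n ∈ SS k M,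
        Real.logb 2 ((k : ℝ) * 2 ^ n + 1) := by
  rw [Finset.sum_sigma']
  have hnn : ∀ x : (_ : ℕ) × ℕ, 0 ≤ Real.logb 2 ((x.1 : ℝ) * 2 ^ x.2 + 1) := fun x =>
    Real.logb_nonneg (by norm_num) (by
      have : (0 : ℝ) ≤ (x.1 : ℝ) * 2 ^ x.2 := by positivity
      linarith)
  have heq : ∀ p ∈ PA, p = od p * 2 ^ ex p + 1 := fun p hp =>
    (prime_factorM M p hM (hPA p hp).1 (hPA p hp).2.1).2.2
  have hinj : Set.InjOn (fun p : ℕ => (⟨od p, ex p⟩ : (_ : ℕ) × ℕ)) PA := by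
    intro a ha b hb hab
    have h1 : od a = od b := congrArg Sigma.fst hab
    have h2 : ex a = ex b := by
      have := congrArg (fun x : (_ : ℕ) × ℕ => x.2) hab
      exact this
    rw [heq a ha, heq b hb, h1, h2]
  have h1 : ∑ p ∈ PA, Real.logb 2 p = ∑ x ∈ PA.image (fun p : ℕ => (⟨od p, ex p⟩ : (_ : ℕ) × ℕ)),
      Real.logb 2 ((x.1 : ℝ) * 2 ^ x.2 + 1) := by
    rw [Finset.sum_image hinj]
    refine Finset.sum_congr rfl fun p hp => ?_
    have h2 : (p : ℝ) = (od p : ℝ) * 2 ^ ex p + 1 := by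
      have := heq p hp
      exact_mod_cast this
    conv_lhs => rw [h2]
  rw [h1]
  refine Finset.sum_le_sum_of_subset_of_nonneg ?_ (fun x _ _ => hnn x)
  intro x hx
  rw [Finset.mem_image] at hx
  obtain ⟨p, hp, rfl⟩ := hx
  obtain ⟨h2, h3, h4, h5⟩ := hPA p hp
  obtain ⟨-, h6, h7⟩ := prime_factorM M p hM h2 h3
  obtain ⟨h8, h9⟩ := ODC_ex M p hM h2 h3
  rw [Finset.mem_sigma, Finset.mem_filter, Finset.mem_Icc]
  refine ⟨⟨⟨?_, h5⟩, h6⟩, ?_⟩
  · obtain ⟨i, hi⟩ := h6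
    show 3 ≤ od p
    omega
  · show ex p ∈ SS (od p) M
    unfold SS
    rw [Finset.mem_filter, Finset.mem_Icc]
    refine ⟨⟨h8, h9⟩, ?_⟩
    rw [← h7]
    exact h3

theorem ODC_log (M F : ℕ) (hM : 0 < M) (hFdef : F = 2 ^ M + 1) :
    Real.logb 2 ((F.totient / 2 ^ F.totient.factorization 2 : ℕ) : ℝ) =
      ∑ p ∈ F.primeFactors, ((F.factorization p - 1 : ℕ) * Real.logb 2 p + Real.logb 2 (od p)) ∧
    (M : ℝ) ≤ ∑ p ∈ F.primeFactors,
      (((F.factorization p - 1 : ℕ) : ℝ) * Real.logb 2 p + Real.logb 2 p) := by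
  have hF0 : F ≠ 0 := by rw [hFdef]; positivity
  have hpf : ∀ p ∈ F.primeFactors, p.Prime ∧ p ∣ F ∧ 1 ≤ od p := by
    intro p hp
    have hp' := Nat.mem_primeFactors.1 hp
    have h := prime_factorM M p hM hp'.1 (hFdef ▸ hp'.2.1)
    exact ⟨hp'.1, hp'.2.1, h.2.1.pos⟩
  constructor
  · have hO : F.totient / 2 ^ F.totient.factorization 2 = ∏ p ∈ F.primeFactors,
        (p ^ (F.factorization p - 1) * od p) := by
      rw [hFdef]; exact oddpart_totientM M hM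
    rw [hO]
    push_cast
    rw [Real.logb_prod]
    · refine Finset.sum_congr rfl fun p hp => ?_
      have h1 := (hpf p hp).1
      have hpR : (0 : ℝ) < p := by exact_mod_cast h1.pos
      have hoR : (0 : ℝ) < od p := by exact_mod_cast (hpf p hp).2.2
      rw [Real.logb_mul (by positivity) (by positivity), Real.logb_pow]
    · intro p hp
      have h1 := (hpf p hp).1
      have hpR : (0 : ℝ) < p := by exact_mod_cast h1.pos
      have hoR : (0 : ℝ) < od p := by exact_mod_cast (hpf p hp).2.2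
      positivity
  · have hexp : ∀ p ∈ F.primeFactors,
        ((F.factorization p - 1 : ℕ) : ℝ) * Real.logb 2 p + Real.logb 2 p
        = (F.factorization p : ℝ) * Real.logb 2 p := by
      intro p hp
      have h1 : 1 ≤ F.factorization p :=
        ((hpf p hp).1.dvd_iff_one_le_factorization hF0).1 (hpf p hp).2.1
      rw [Nat.cast_sub h1]; push_cast; ring
    rw [Finset.sum_congr rfl hexp]
    have e1 : Real.logb 2 (F : ℝ) =
        ∑ p ∈ F.primeFactors, (F.factorization p : ℝ) * Real.logb 2 p := by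
      conv_lhs => rw [← Nat.prod_factorization_pow_eq_self hF0]
      rw [Finsupp.prod, Nat.support_factorization]
      push_cast
      rw [Real.logb_prod]
      · refine Finset.sum_congr rfl fun p hp => ?_
        rw [Real.logb_pow]
      · intro p hp
        have := (hpf p hp).1.pos
        positivity
    rw [← e1]
    have hFpos : (0 : ℝ) < F := by exact_mod_cast (Nat.pos_of_ne_zero hF0)
    rw [Real.le_logb_iff_rpow_le (by norm_num) hFpos, Real.rpow_natCast]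
    have e2 : (2 : ℝ) ^ M = ((2 ^ M : ℕ) : ℝ) := by push_cast; rfl
    rw [e2, Nat.cast_le, hFdef]
    exact Nat.le_succ _

theorem ODC_large (hLRG : LRG_stmt) (M K : ℕ) (hM : 24 ≤ M) (hK : K = ⌊(M : ℝ) ^ (1 / 8 : ℝ)⌋₊)
    (hS : ∑ k ∈ (Icc 3 K).filter (fun k => Odd k), ∑ n ∈ SS k M,
      Real.logb 2 ((k : ℝ) * 2 ^ n + 1) ≤ (M : ℝ) / 4) (hF : ¬ (2 ^ M + 1).Prime) :
    1 / 26 * √((M : ℝ) * Real.logb 2 M) ≤
      Real.logb 2 ((Nat.totient (2 ^ M + 1) /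
        2 ^ (Nat.totient (2 ^ M + 1)).factorization 2 : ℕ) : ℝ) := by
  obtain ⟨F, hFdef⟩ : ∃ F : ℕ, F = 2 ^ M + 1 := ⟨_, rfl⟩
  have hM0 : 0 < M := by omega
  obtain ⟨hlog, hMle⟩ := ODC_log M F hM0 hFdef
  rw [← hFdef] at hF ⊢
  rw [hlog]
  obtain ⟨P, hP⟩ : ∃ P, P = F.primeFactors := ⟨_, rfl⟩
  rw [← hP] at hMle ⊢
  have hMR : (24 : ℝ) ≤ M := by exact_mod_cast hM
  have hMpos : (0 : ℝ) < M := by linarith
  have hpf : ∀ p ∈ P, p.Prime ∧ p ∣ 2 ^ M + 1 ∧ Odd (od p) ∧ p = od p * 2 ^ ex p + 1 := by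
    intro p hp
    rw [hP] at hp
    have hp' := Nat.mem_primeFactors.1 hp
    have h := prime_factorM M p hM0 hp'.1 (hFdef ▸ hp'.2.1)
    exact ⟨hp'.1, hFdef ▸ hp'.2.1, h.2⟩
  obtain ⟨κ₀, hκ₀⟩ : ∃ κ₀ : ℝ, κ₀ = Real.logb 2 M / 8 := ⟨_, rfl⟩
  have hlogM : 0 < Real.logb 2 M := Real.logb_pos (by norm_num) (by linarith)
  have hκpos : 0 < κ₀ := by rw [hκ₀]; positivity
  have hsκ : 0 < √κ₀ := Real.sqrt_pos.2 hκpos
  have hsM : 0 < √(M : ℝ) := Real.sqrt_pos.2 hMpos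
  have hlogle : Real.logb 2 M ≤ M := by
    rw [Real.logb_le_iff_le_rpow (by norm_num) hMpos, Real.rpow_natCast]
    exact_mod_cast (Nat.lt_two_pow_self (n := M)).le
  obtain ⟨lm, hlm⟩ : ∃ lm : ℝ, lm = 3 * √(M : ℝ) / √κ₀ := ⟨_, rfl⟩
  have hlm1 : 1 ≤ lm := by
    rw [hlm, le_div_iff₀ hsκ, one_mul]
    have h1 : √κ₀ ≤ √(M : ℝ) := Real.sqrt_le_sqrt (by rw [hκ₀]; linarith)
    linarith
  -- the three parts
  obtain ⟨P1, hP1⟩ : ∃ P1, P1 = P.filter (fun p => od p = 1) := ⟨_, rfl⟩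
  obtain ⟨PA, hPA⟩ : ∃ PA, PA = (P.filter (fun p => ¬ od p = 1)).filter (fun p => od p ≤ K) :=
    ⟨_, rfl⟩
  obtain ⟨PB, hPB⟩ : ∃ PB, PB = (P.filter (fun p => ¬ od p = 1)).filter (fun p => ¬ od p ≤ K) :=
    ⟨_, rfl⟩
  have hsplit : ∑ p ∈ P, Real.logb 2 (p : ℝ) = ∑ p ∈ P1, Real.logb 2 (p : ℝ) +
      (∑ p ∈ PA, Real.logb 2 (p : ℝ) + ∑ p ∈ PB, Real.logb 2 (p : ℝ)) := by
    rw [hP1, hPA, hPB, Finset.sum_filter_add_sum_filter_not, Finset.sum_filter_add_sum_filter_not]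
  have h1 : ∑ p ∈ P1, Real.logb 2 (p : ℝ) ≤ (M : ℝ) / 3 + 1 :=
    ODC_card M F hM0 hFdef hF P1 (by rw [hP1, hP])
  have hA : ∑ p ∈ PA, Real.logb 2 (p : ℝ) ≤ (M : ℝ) / 4 := by
    refine (ODC_A M K hM0 PA ?_).trans hS
    intro p hp
    rw [hPA, Finset.mem_filter, Finset.mem_filter] at hp
    obtain ⟨⟨h2, h3⟩, h4⟩ := hp
    exact ⟨(hpf p h2).1, (hpf p h2).2.1, h3, h4⟩
  have hod0 : ∀ p ∈ P, 0 ≤ Real.logb 2 (od p : ℝ) := by
    intro p hp
    refine Real.logb_nonneg (by norm_num) ?_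
    exact_mod_cast (hpf p hp).2.2.1.pos
  have hB : ∑ p ∈ PB, Real.logb 2 (p : ℝ) ≤ lm * ∑ p ∈ P, Real.logb 2 (od p : ℝ) := by
    have h2 : ∀ p ∈ PB, Real.logb 2 (p : ℝ) ≤ lm * Real.logb 2 (od p : ℝ) := by
      intro p hp
      rw [hPB, Finset.mem_filter, Finset.mem_filter] at hp
      obtain ⟨⟨h3, h4⟩, h5⟩ := hp
      obtain ⟨q1, q2, q3, q4⟩ := hpf p h3
      obtain ⟨h8, h9⟩ := ODC_ex M p hM0 q1 q2
      have h6 : (M : ℝ) ^ (1 / 8 : ℝ) ≤ (od p : ℝ) := by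
        rw [hK, not_le, Nat.floor_lt (by positivity)] at h5
        exact h5.le
      have h7 : κ₀ ≤ Real.logb 2 (od p : ℝ) := by
        have h10 := Real.logb_le_logb_of_le (b := 2) (by norm_num) (by positivity) h6
        rw [Real.logb_rpow_eq_mul_logb_of_pos hMpos] at h10
        rw [hκ₀]
        linarith
      have h11 := hLRG (od p) M (ex p) κ₀ q3 (by
        obtain ⟨i, hi⟩ := q3
        omega) h8 (by rw [← q4]; exact q2) hκpos h7
      have h12 : (od p : ℝ) * 2 ^ ex p + 1 = (p : ℝ) := by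
        have : od p * 2 ^ ex p + 1 = p := q4.symm
        exact_mod_cast this
      rw [h12] at h11
      rw [hlm, div_mul_eq_mul_div, le_div_iff₀ hsκ]
      exact h11
    calc ∑ p ∈ PB, Real.logb 2 (p : ℝ) ≤ ∑ p ∈ PB, lm * Real.logb 2 (od p : ℝ) :=
          Finset.sum_le_sum h2
      _ = lm * ∑ p ∈ PB, Real.logb 2 (od p : ℝ) := by rw [Finset.mul_sum]
      _ ≤ lm * ∑ p ∈ P, Real.logb 2 (od p : ℝ) := by
          refine mul_le_mul_of_nonneg_left ?_ (by linarith)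
          refine Finset.sum_le_sum_of_subset_of_nonneg ?_ (fun p hp _ => hod0 p hp)
          rw [hPB]
          exact (Finset.filter_subset _ _).trans (Finset.filter_subset _ _)
  obtain ⟨lam, hlam⟩ : ∃ lam : ℝ, lam = ∑ p ∈ P, (((F.factorization p - 1 : ℕ) : ℝ) *
      Real.logb 2 p + Real.logb 2 (od p)) := ⟨_, rfl⟩
  have hτ0 : 0 ≤ ∑ p ∈ P, ((F.factorization p - 1 : ℕ) : ℝ) * Real.logb 2 p := by
    refine Finset.sum_nonneg fun p hp => mul_nonneg (Nat.cast_nonneg _) ?_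
    refine Real.logb_nonneg (by norm_num) ?_
    exact_mod_cast (hpf p hp).1.one_lt.le
  rw [← hlam]
  have hmain : (M : ℝ) / 3 ≤ lm * lam := by
    rw [Finset.sum_add_distrib] at hMle hlam
    rw [hsplit] at hMle
    have h2 : ∑ p ∈ P, ((F.factorization p - 1 : ℕ) : ℝ) * Real.logb 2 p ≤
        lm * ∑ p ∈ P, ((F.factorization p - 1 : ℕ) : ℝ) * Real.logb 2 p :=
      le_mul_of_one_le_left hτ0 hlm1
    have h3 : lm * lam = lm * ∑ p ∈ P, ((F.factorization p - 1 : ℕ) : ℝ) * Real.logb 2 p +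
        lm * ∑ p ∈ P, Real.logb 2 (od p : ℝ) := by
      rw [hlam]; ring
    linarith
  have h4 : (M : ℝ) / 3 * √κ₀ ≤ 3 * √(M : ℝ) * lam := by
    have h5 : lm * √κ₀ = 3 * √(M : ℝ) := by
      rw [hlm, div_mul_cancel₀ _ hsκ.ne']
    calc (M : ℝ) / 3 * √κ₀ ≤ lm * lam * √κ₀ := mul_le_mul_of_nonneg_right hmain hsκ.le
      _ = lm * √κ₀ * lam := by ring
      _ = 3 * √(M : ℝ) * lam := by rw [h5]
  have h5 : √(M : ℝ) * √κ₀ ≤ 9 * lam := by
    have h6 : √(M : ℝ) * √(M : ℝ) = M := Real.mul_self_sqrt hMpos.le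
    have h7 : √(M : ℝ) * (√(M : ℝ) * √κ₀) ≤ √(M : ℝ) * (9 * lam) := by
      rw [← mul_assoc, h6]
      linarith
    exact le_of_mul_le_mul_left h7 hsM
  have h6 : √((M : ℝ) * Real.logb 2 M) = √8 * (√(M : ℝ) * √κ₀) := by
    rw [← Real.sqrt_mul hMpos.le, ← Real.sqrt_mul (by norm_num), hκ₀]
    congr 1
    ring
  have h7 : √(8 : ℝ) ≤ 26 / 9 := by
    rw [Real.sqrt_le_left (by norm_num)]
    norm_num
  rw [h6]
  have h8 : 0 ≤ √(M : ℝ) * √κ₀ := by positivity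
  have h9 : √8 * (√(M : ℝ) * √κ₀) ≤ 26 / 9 * (√(M : ℝ) * √κ₀) :=
    mul_le_mul_of_nonneg_right h7 h8
  linarith

theorem ODC (hSMP : SMP_stmt) (hLRG : LRG_stmt) : ODC_stmt := by
  obtain ⟨M₀, hM₀⟩ := hSMP
  obtain ⟨s, hs⟩ : ∃ s : ℝ, s = √(Real.logb 2 ((M₀ : ℝ) + 2)) := ⟨_, rfl⟩
  have hs0 : 0 < s := by
    rw [hs]
    refine Real.sqrt_pos.2 (Real.logb_pos (by norm_num) ?_)
    have : (0 : ℝ) ≤ M₀ := Nat.cast_nonneg _
    linarith
  refine ⟨min (1 / 26) (1 / (4 * s)), lt_min (by norm_num) (by positivity), ?_⟩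
  intro M hM hF
  have hMR : (24 : ℝ) ≤ M := by exact_mod_cast hM
  by_cases h : M₀ ≤ M
  · have h1 := ODC_large hLRG M ⌊(M : ℝ) ^ (1 / 8 : ℝ)⌋₊ hM rfl
      (hM₀ M _ h (Nat.floor_le (by positivity))) hF
    exact (mul_le_mul_of_nonneg_right (min_le_left _ _) (Real.sqrt_nonneg _)).trans h1
  · rw [not_le] at h
    obtain ⟨-, h1⟩ := gap_M M (2 ^ M + 1) hM rfl hF
    refine le_trans ?_ h1
    have hMR' : (M : ℝ) ≤ M₀ := by exact_mod_cast h.le
    have h2 : √((M : ℝ) * Real.logb 2 M) ≤ √(M : ℝ) * s := by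
      rw [hs, ← Real.sqrt_mul (by linarith)]
      refine Real.sqrt_le_sqrt (mul_le_mul_of_nonneg_left ?_ (by linarith))
      exact Real.logb_le_logb_of_le (by norm_num) (by linarith) (by linarith)
    calc min (1 / 26) (1 / (4 * s)) * √((M : ℝ) * Real.logb 2 M)
        ≤ 1 / (4 * s) * √((M : ℝ) * Real.logb 2 M) :=
          mul_le_mul_of_nonneg_right (min_le_right _ _) (Real.sqrt_nonneg _)
      _ ≤ 1 / (4 * s) * (√(M : ℝ) * s) := mul_le_mul_of_nonneg_left h2 (by positivity)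
      _ = √(M : ℝ) / 4 := by field_simp

end Pool.Agent.FXM
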